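import Pool.Agent.U436.HP.Main

/-!
# The coordinate strata of diagonal complete intersections with Vandermonde coefficients
-/

set_option autoImplicit false

namespace Pool.Agent.U436.HP

open Polynomial Finset

variable {k : Type*} [Field k] {N N' : ℕ}

/-- The intersection of the variety with the coordinate subspace `x i = 0` (`i` not in the range of `g`) is the
variety of the same kind given by the points `p (g 1), …, p (g N')`. -/
theorem stratum {n m : ℕ} (hn : n ≠ 0) (p c : Fin N → k) {g : Fin N' → Fin N} (hg : Function.Injective g)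
    (x : Fin N' → k) :
    Function.extend g x 0 ∈ pts n m p c ↔ x ∈ pts n m (p ∘ g) (c ∘ g) := by
  classical
  have h1 : ∀ j, ∑ i, c i * p i ^ j * (Function.extend g x 0 i) ^ n
      = ∑ i, (c ∘ g) i * (p ∘ g) i ^ j * x i ^ n := by
    intro j
    rw [← Finset.sum_subset (Finset.subset_univ (univ.image g)) (fun i _ hi => ?_),
      Finset.sum_image (fun a _ b _ h => hg h)]
    · refine Finset.sum_congr rfl fun i _ => ?_
      rw [hg.extend_apply]; rfl
    · have : ¬ ∃ a, g a = i := by
        rintro ⟨a, ha⟩
        exact hi (Finset.mem_image.mpr ⟨a, mem_univ a, ha⟩)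
      rw [Function.extend_apply' _ _ _ this, Pi.zero_apply, zero_pow hn, mul_zero]
  have h2 : Function.extend g x 0 = 0 ↔ x = 0 := by
    constructor
    · intro h
      funext i
      have := congrFun h (g i)
      rwa [hg.extend_apply] at this
    · rintro rfl
      funext i
      by_cases h : ∃ a, g a = i
      · obtain ⟨a, rfl⟩ := h
        rw [hg.extend_apply]; rfl
      · rw [Function.extend_apply' _ _ _ h]
  unfold pts
  rw [Set.mem_ofPred_eq, Set.mem_ofPred_eq]
  refine and_congr (not_congr h2) (forall_congr' fun j => forall_congr' fun _ => ?_)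
  rw [eval_form, eval_form, h1]

/-- The variety does not meet the coordinate subspaces of codimension greater than `d`. -/
theorem card_zeros_le {n m d : ℕ} (hn : n ≠ 0) {p c : Fin N → k} (hp : Function.Injective p)
    (hc : ∀ i, c i ≠ 0) (hN : m + d + 1 = N) {x : Fin N → k} (hx : x ∈ pts n m p c) [DecidableEq k] :
    (univ.filter fun i => x i = 0).card ≤ d := by
  classical
  obtain ⟨hx0, P, hPd, hP⟩ := (mem_pts_iff hp hN).mp hx
  have hP0 : P ≠ 0 := by
    rintro rfl
    apply hx0
    funext i
    have := hP i
    simp only [eval_zero, mul_zero] at this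
    have := (mul_eq_zero.mp this.symm).resolve_left (hc i)
    simpa using pow_eq_zero_iff hn |>.mp this
  have hsub : (univ.filter fun i => x i = 0).image p ⊆ P.roots.toFinset := by
    intro a ha
    obtain ⟨i, hi, rfl⟩ := Finset.mem_image.mp ha
    rw [Multiset.mem_toFinset, mem_roots hP0, IsRoot]
    have h1 := hP i
    rw [(Finset.mem_filter.mp hi).2, zero_pow hn, mul_zero] at h1
    exact (mul_eq_zero.mp h1).resolve_left (wt_ne_zero hp i)
  calc (univ.filter fun i => x i = 0).card = ((univ.filter fun i => x i = 0).image p).card :=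
        (Finset.card_image_of_injective _ hp).symm
    _ ≤ P.roots.toFinset.card := Finset.card_le_card hsub
    _ ≤ Multiset.card P.roots := Multiset.toFinset_card_le _
    _ ≤ P.natDegree := card_roots' P
    _ ≤ d := hPd

/-- Existence of the scaling factors. -/
theorem exists_lam [IsAlgClosed k] {n : ℕ} (hn : n ≠ 0) {p c : Fin N → k} (hp : Function.Injective p)
    (hc : ∀ i, c i ≠ 0) : ∃ lam : Fin N → k, (∀ i, lam i ≠ 0) ∧ ∀ i, c i * lam i ^ n = wt p i := by
  choose lam hlam using fun i => IsAlgClosed.exists_pow_nat_eq (wt p i / c i) (Nat.pos_of_ne_zero hn)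
  have h1 : ∀ i, c i * lam i ^ n = wt p i := fun i => by
    rw [hlam i, mul_div_cancel₀ _ (hc i)]
  exact ⟨lam, fun i h => wt_ne_zero hp i (by rw [← h1 i, h, zero_pow hn, mul_zero]), h1⟩

end Pool.Agent.U436.HP
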