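import Pool.Agent.U436.HP.Strata

/-!
# The affine varieties of the monic polynomials with values `x i ^ n` at given points
-/

set_option autoImplicit false

namespace Pool.Agent.U436.HP

open Polynomial Finset

variable {k : Type*} [Field k] {N : ℕ}

/-- The affine variety given by the `m + 1` equations `∑ i, p i ^ j / ∏ l ≠ i, (p i - p l) * x i ^ n = 0`
(`j < m`), `= 1` (`j = m`) in the affine space of dimension `N`. -/
def aff (n m : ℕ) (p : Fin N → k) : Set (Fin N → k) :=
  {x | ∀ j ≤ m, MvPolynomial.eval x (form n p (wt p) j) = if j = m then 1 else 0}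

/-- The points of the variety are the `n`-th roots of the values of the monic polynomials of degree `d`. -/
theorem mem_aff_iff {n m d : ℕ} {p : Fin N → k} (hp : Function.Injective p) (hN : m + d + 1 = N)
    {x : Fin N → k} : x ∈ aff n m p ↔ ∃ P : k[X], P.Monic ∧ P.natDegree = d ∧ ∀ i, P.eval (p i) = x i ^ n := by
  have hsum : ∀ j, MvPolynomial.eval x (form n p (wt p) j) = ∑ i, wt p i * p i ^ j * x i ^ n := fun j =>
    eval_form _ _ _ _ _
  have htop : ∀ P : k[X], P.natDegree ≤ d → (∀ i, P.eval (p i) = x i ^ n) →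
      MvPolynomial.eval x (form n p (wt p) m) = P.coeff d := by
    intro P hP h
    rw [hsum]
    have h1 : (P * X ^ m).natDegree < N :=
      lt_of_le_of_lt (natDegree_mul_le.trans (add_le_add hP (natDegree_X_pow_le m))) (by omega)
    have h2 := sum_wt_eq_coeff hp h1
    have h3 : (P * X ^ m).coeff (N - 1) = P.coeff d := by
      rw [coeff_mul_X_pow', if_pos (by omega)]
      congr 1; omega
    rw [← h3, ← h2]
    refine Finset.sum_congr rfl fun i _ => ?_
    rw [eval_mul, eval_pow, eval_X, h i]; ring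
  unfold aff
  rw [Set.mem_ofPred_eq]
  constructor
  · intro h
    obtain ⟨P, hPd, hP⟩ := (exists_poly_iff hp hN (fun i => x i ^ n)).mp (fun j hj => by
      have := h j hj.le
      rwa [hsum, if_neg hj.ne] at this)
    have h1 := h m le_rfl
    rw [if_pos rfl, htop P hPd hP] at h1
    have h2 : P.natDegree = d := by
      refine le_antisymm hPd (le_natDegree_of_ne_zero ?_)
      rw [h1]; exact one_ne_zero
    exact ⟨P, by rw [Monic, leadingCoeff, h2, h1], h2, hP⟩
  · rintro ⟨P, hm, hd, hP⟩ j hj
    rcases hj.lt_or_eq with hlt | rfl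
    · rw [if_neg hlt.ne, hsum]
      exact (exists_poly_iff hp hN (fun i => x i ^ n)).mpr ⟨P, hd.le, hP⟩ j hlt
    · rw [if_pos rfl, htop P hd.le hP, ← hd]
      exact hm

/-- The Jacobian criterion. -/
theorem aff_smooth {n m d : ℕ} (hn : (n : k) ≠ 0) {p : Fin N → k} (hp : Function.Injective p)
    (hN : m + d + 1 = N) {x : Fin N → k} (hx : x ∈ aff n m p) :
    LinearIndependent k (fun (j : Fin (m + 1)) (i : Fin N) =>
      MvPolynomial.eval x (MvPolynomial.pderiv i (form n p (wt p) j))) := by
  classical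
  have hn0 : n ≠ 0 := by rintro rfl; simp at hn
  obtain ⟨P, hmon, hPd, hP⟩ := (mem_aff_iff hp hN).mp hx
  rw [Fintype.linearIndependent_iff]
  intro g hg
  set Q : k[X] := ∑ j : Fin (m + 1), C (g j) * X ^ (j : ℕ) with hQ
  have hQP : ∀ i, (Q * P).eval (p i) = 0 := by
    intro i
    rw [eval_mul]
    by_cases hxi : x i = 0
    · rw [hP i, hxi, zero_pow hn0, mul_zero]
    · have h1 := congrFun hg i
      simp only [Finset.sum_apply, Pi.smul_apply, smul_eq_mul, Pi.zero_apply] at h1
      rw [Finset.sum_congr rfl fun j _ => by rw [pderiv_form]] at h1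
      have h2 : Q.eval (p i) * (n * wt p i * x i ^ (n - 1)) = 0 := by
        rw [← h1, hQ, eval_finsetSum, Finset.sum_mul]
        refine Finset.sum_congr rfl fun j _ => ?_
        rw [eval_mul, eval_C, eval_pow, eval_X]; ring
      have h3 : (n * wt p i * x i ^ (n - 1) : k) ≠ 0 :=
        mul_ne_zero (mul_ne_zero hn (wt_ne_zero hp i)) (pow_ne_zero _ hxi)
      rw [(mul_eq_zero.mp h2).resolve_right h3, zero_mul]
  have hQd : Q.natDegree ≤ m := by
    rw [hQ]
    refine natDegree_sum_le_of_forall_le _ _ fun j _ => ?_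
    refine (natDegree_C_mul_X_pow_le _ _).trans ?_
    have := j.2; omega
  have hQP0 : Q * P = 0 := poly_eq_zero hp (lt_of_le_of_lt natDegree_mul_le (by omega)) hQP
  have hQ0 : Q = 0 := (mul_eq_zero.mp hQP0).resolve_right hmon.ne_zero
  intro j
  have h4 : Q.coeff (j : ℕ) = g j := by
    rw [hQ, finsetSum_coeff, Finset.sum_eq_single j]
    · simp
    · intro l _ hl
      rw [coeff_C_mul, coeff_X_pow, if_neg (fun h => hl (Fin.ext h.symm)), mul_zero]
    · intro h; exact absurd (mem_univ j) h
  rw [← h4, hQ0, coeff_zero]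

/-- The affine curve `y i ^ n = p i - t`. -/
def affCurve (n : ℕ) (p : Fin N → k) : Set (Fin N → k) := {y | ∃ t : k, ∀ i, y i ^ n = p i - t}

variable {n m d : ℕ} {p : Fin N → k}

/-- Products of points of the affine curve. -/
theorem aff_prod_mem (hp : Function.Injective p) (hN : m + d + 1 = N) (y : Fin d → Fin N → k)
    (hy : ∀ j, y j ∈ affCurve n p) : (fun i => ∏ j, y j i) ∈ aff n m p := by
  choose t ht using hy
  refine (mem_aff_iff hp hN).mpr ⟨∏ j, (X - C (t j)), monic_prod_X_sub_C _ _, ?_, fun i => ?_⟩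
  · rw [natDegree_prod_of_monic _ _ fun j _ => monic_X_sub_C _]; simp
  · rw [eval_prod, ← Finset.prod_pow]
    refine Finset.prod_congr rfl fun j _ => ?_
    rw [ht]; simp

/-- Every point of the affine variety is a product of points of the affine curve. -/
theorem aff_exists_prod [IsAlgClosed k] (hn : n ≠ 0) (hp : Function.Injective p) (hd : 1 ≤ d)
    (hN : m + d + 1 = N) {x : Fin N → k} (hx : x ∈ aff n m p) :
    ∃ y : Fin d → Fin N → k, (∀ j, y j ∈ affCurve n p) ∧ ∀ i, x i = ∏ j, y j i := by
  obtain ⟨P, hmon, hPd, hP⟩ := (mem_aff_iff hp hN).mp hx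
  -- the roots
  have hsp : P.Splits := IsAlgClosed.splits P
  have hcard : Multiset.card P.roots = d := by rw [← hPd]; exact hsp.natDegree_eq_card_roots.symm
  obtain ⟨t, ht⟩ : ∃ t : Fin d → k, P = ∏ j, (X - C (t j)) := by
    have h1 : P = (P.roots.map fun a => X - C a).prod := by
      have := hsp.eq_prod_roots
      rw [hmon.leadingCoeff, C_1, one_mul] at this
      exact this
    obtain ⟨l, hl⟩ : ∃ l : List k, (l : Multiset k) = P.roots := Quot.exists_rep _
    have hlen : l.length = d := by rw [← hcard, ← hl]; rfl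
    subst hlen
    refine ⟨fun j => l.get j, ?_⟩
    rw [h1, ← hl, Multiset.map_coe, Multiset.prod_coe, ← List.prod_ofFn]
    congr 1
    refine List.ext_getElem (by simp) fun i h1 h2 => ?_
    simp
  choose y hy using fun (j : Fin d) (i : Fin N) => IsAlgClosed.exists_pow_nat_eq (p i - t j)
    (Nat.pos_of_ne_zero hn)
  have hpow : ∀ i, x i ^ n = (∏ j, y j i) ^ n := by
    intro i
    rw [← hP i, ht, eval_prod, ← Finset.prod_pow]
    refine Finset.prod_congr rfl fun j _ => ?_
    rw [hy]; simp
  have hz : ∀ i, ∃ z : k, z ^ n = 1 ∧ x i = z * ∏ j, y j i := by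
    intro i
    by_cases h0 : ∏ j, y j i = 0
    · refine ⟨1, one_pow n, ?_⟩
      have := hpow i
      rw [h0, zero_pow hn] at this
      rw [(pow_eq_zero_iff hn).mp this, h0, mul_zero]
    · refine ⟨x i / ∏ j, y j i, ?_, ?_⟩
      · rw [div_pow, hpow i, div_self (pow_ne_zero _ h0)]
      · rw [div_mul_cancel₀ _ h0]
  choose z hz1 hzx using hz
  let j0 : Fin d := ⟨0, hd⟩
  refine ⟨fun j i => (if j = j0 then z i else 1) * y j i, fun j => ⟨t j, fun i => ?_⟩, fun i => ?_⟩
  · simp only
    split_ifs
    · rw [mul_pow, hz1, one_mul, hy]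
    · rw [one_mul, hy]
  · rw [Finset.prod_mul_distrib, Finset.prod_ite_eq' univ j0, if_pos (mem_univ _), hzx i]

/-- The fibres of the product map. -/
theorem aff_prod_eq_iff (hn : n ≠ 0) (hp : Function.Injective p)
    (hN : m + d + 1 = N) {y y' : Fin d → Fin N → k}
    (hy : ∀ j, y j ∈ affCurve n p) (hy' : ∀ j, y' j ∈ affCurve n p) :
    (∀ i, ∏ j, y' j i = ∏ j, y j i) ↔
      ∃ (σ : Equiv.Perm (Fin d)) (ζ : Fin d → Fin N → k),
        (∀ j i, ζ j i ^ n = 1) ∧ (∀ i, ∏ j, ζ j i = 1) ∧ ∀ j i, y' j i = ζ j i * y (σ j) i := by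
  classical
  constructor
  · intro h'
    choose t ht using hy
    choose t' ht' using hy'
    have hdeg : ∀ s : Fin d → k, (∏ j, (X - C (s j))).natDegree = d := by
      intro s
      rw [natDegree_prod_of_monic _ _ fun j _ => monic_X_sub_C _]; simp
    have hprod : ∏ j, (X - C (t j)) = C 1 * ∏ j, (X - C (t' j)) := by
      rw [C_1, one_mul, ← sub_eq_zero]
      refine poly_eq_zero hp ?_ fun i => ?_
      · refine lt_of_le_of_lt (natDegree_sub_le _ _) (max_lt ?_ ?_)
        · rw [hdeg]; omega
        · rw [hdeg]; omega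
      · rw [eval_sub, eval_prod, eval_prod, sub_eq_zero]
        have e1 : ∀ j ∈ univ, eval (p i) (X - C (t j)) = y j i ^ n := fun j _ => by rw [ht]; simp
        have e2 : ∀ j ∈ univ, eval (p i) (X - C (t' j)) = y' j i ^ n := fun j _ => by rw [ht']; simp
        rw [Finset.prod_congr rfl e1, Finset.prod_congr rfl e2, Finset.prod_pow, Finset.prod_pow, h' i]
    obtain ⟨σ, hσ⟩ := exists_perm one_ne_zero (L := fun j => X - C (t j)) (L' := fun j => X - C (t' j))
      (fun j => ⟨X_sub_C_ne_zero _, (natDegree_X_sub_C _).le⟩)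
      (fun j => ⟨X_sub_C_ne_zero _, (natDegree_X_sub_C _).le⟩) hprod
    have htt : ∀ j, t' j = t (σ j) := by
      intro j
      obtain ⟨u, hu0, hu⟩ := hσ j
      have h1 := congrArg (fun P : k[X] => P.coeff 1) hu
      simp [coeff_X_one] at h1
      have h2 := congrArg (fun P : k[X] => P.coeff 0) hu
      simp [← h1] at h2
      exact h2
    have hpow : ∀ j i, y' j i ^ n = y (σ j) i ^ n := by
      intro j i
      rw [ht', ht, htt]
    have hz0 : ∀ j i, ∃ z : k, z ^ n = 1 ∧ y' j i = z * y (σ j) i := by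
      intro j i
      by_cases h0 : y (σ j) i = 0
      · refine ⟨1, one_pow n, ?_⟩
        have := hpow j i
        rw [h0, zero_pow hn] at this
        rw [(pow_eq_zero_iff hn).mp this, h0]; ring
      · refine ⟨y' j i / y (σ j) i, ?_, ?_⟩
        · rw [div_pow, hpow j i, div_self (pow_ne_zero _ h0)]
        · rw [div_mul_cancel₀ _ h0]
    choose z hz1 hz using hz0
    have hcomp : ∀ i, (∏ j, z j i) * ∏ j, y j i = ∏ j, y j i := by
      intro i
      rw [← Equiv.prod_comp σ (fun j => y j i), ← Finset.prod_mul_distrib, Equiv.prod_comp σ (fun j => y j i),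
        ← h' i]
      exact Finset.prod_congr rfl fun j _ => (hz j i).symm
    have hfin : ∀ i, ∃ w : Fin d → k, (∀ j, w j ^ n = 1) ∧ ∏ j, w j = 1 ∧
        (∀ j, y' j i = w j * y (σ j) i) := by
      intro i
      by_cases hi : ∏ j, y j i = 0
      · obtain ⟨j1, _, hj1⟩ := Finset.prod_eq_zero_iff.mp hi
        set j0 := σ.symm j1 with hj0
        have hy0 : y (σ j0) i = 0 := by rw [hj0, Equiv.apply_symm_apply]; exact hj1
        have hz0 : ∀ j, z j i ≠ 0 := by
          intro j h0
          have := hz1 j i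
          rw [h0, zero_pow hn] at this
          exact zero_ne_one this
        refine ⟨Function.update (fun j => z j i) j0 (∏ j ∈ univ.erase j0, z j i)⁻¹, fun j => ?_, ?_,
          fun j => ?_⟩
        · by_cases hj : j = j0
          · subst hj
            rw [Function.update_self, inv_pow, ← Finset.prod_pow]
            simp [hz1]
          · rw [Function.update_of_ne hj]; exact hz1 j i
        · rw [← Finset.mul_prod_erase univ _ (mem_univ j0), Function.update_self]
          rw [Finset.prod_congr rfl fun j hj => Function.update_of_ne (Finset.ne_of_mem_erase hj) _ _]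
          rw [inv_mul_cancel₀ (Finset.prod_ne_zero_iff.mpr fun j _ => hz0 j)]
        · by_cases hj : j = j0
          · rw [hj, hz j0 i, hy0]; ring
          · rw [Function.update_of_ne hj]; exact hz j i
      · exact ⟨fun j => z j i, fun j => hz1 j i,
          mul_right_cancel₀ hi ((hcomp i).trans (one_mul _).symm), fun j => hz j i⟩
    choose w hw1 hw2 hw3 using hfin
    exact ⟨σ, fun j i => w i j, fun j i => hw1 i j, hw2, fun j i => hw3 i j⟩
  · rintro ⟨σ, ζ, hζ, hτ, h⟩ i
    rw [Finset.prod_congr rfl fun j _ => h j i, Finset.prod_mul_distrib, hτ i, one_mul,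
      Equiv.prod_comp σ (fun j => y j i)]

/-- The affine curve is the variety of dimension one. -/
theorem affCurve_eq (hp : Function.Injective p) (hN : 2 ≤ N) : affCurve n p = aff n (N - 2) p := by
  ext y
  rw [mem_aff_iff (d := 1) hp (by omega)]
  constructor
  · rintro ⟨t, ht⟩
    exact ⟨X - C t, monic_X_sub_C t, natDegree_X_sub_C t, fun i => by rw [ht]; simp⟩
  · rintro ⟨P, hm, hd, hP⟩
    refine ⟨-P.coeff 0, fun i => ?_⟩
    rw [← hP i]
    have h1 : P = X + C (P.coeff 0) := by
      have := eq_X_add_C_of_natDegree_le_one hd.le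
      have h2 : P.coeff 1 = 1 := by rw [← hd]; exact hm
      rwa [h2, C_1, one_mul] at this
    conv_lhs => rw [h1]
    simp

/-- The variety `∑ i, c i * p i ^ j * x i ^ n = 0` (`j < m`), `= b` (`j = m`). -/
def affc (n m : ℕ) (p c : Fin N → k) (b : k) : Set (Fin N → k) :=
  {x | ∀ j ≤ m, MvPolynomial.eval x (form n p c j) = if j = m then b else 0}

/-- Rescaling the coordinates. -/
theorem mem_affc_iff {c lam : Fin N → k} {b : k} (hb : b ≠ 0)
    (hlam : ∀ i, c i * lam i ^ n = b * wt p i) (x : Fin N → k) :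
    (fun i => lam i * x i) ∈ affc n m p c b ↔ x ∈ aff n m p := by
  unfold affc aff
  rw [Set.mem_ofPred_eq, Set.mem_ofPred_eq]
  refine forall₂_congr fun j _ => ?_
  rw [eval_form, eval_form]
  have h1 : ∑ i, c i * p i ^ j * (lam i * x i) ^ n = b * ∑ i, wt p i * p i ^ j * x i ^ n := by
    rw [Finset.mul_sum]
    refine Finset.sum_congr rfl fun i _ => ?_
    rw [mul_pow]
    calc c i * p i ^ j * (lam i ^ n * x i ^ n) = (c i * lam i ^ n) * (p i ^ j * x i ^ n) := by ring
      _ = b * (wt p i * p i ^ j * x i ^ n) := by rw [hlam i]; ring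
  rw [h1]
  split_ifs
  · constructor
    · intro h
      exact mul_left_cancel₀ hb (h.trans (mul_one b).symm)
    · intro h; rw [h, mul_one]
  · constructor
    · intro h
      exact (mul_eq_zero.mp h).resolve_left hb
    · intro h; rw [h, mul_zero]

/-- The Jacobian criterion. -/
theorem affc_smooth [IsAlgClosed k] (hn : (n : k) ≠ 0) (hp : Function.Injective p) (hN : m + d + 1 = N)
    {c : Fin N → k} {b : k} (hc : ∀ i, c i ≠ 0) (hb : b ≠ 0) {x : Fin N → k} (hx : x ∈ affc n m p c b) :
    LinearIndependent k (fun (j : Fin (m + 1)) (i : Fin N) =>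
      MvPolynomial.eval x (MvPolynomial.pderiv i (form n p c j))) := by
  classical
  have hn0 : n ≠ 0 := by rintro rfl; simp at hn
  choose lam hlam using fun i => IsAlgClosed.exists_pow_nat_eq (b * wt p i / c i) (Nat.pos_of_ne_zero hn0)
  have h1 : ∀ i, c i * lam i ^ n = b * wt p i := fun i => by
    rw [hlam i, mul_div_cancel₀ _ (hc i)]
  have h0 : ∀ i, lam i ≠ 0 := fun i h => mul_ne_zero hb (wt_ne_zero hp i)
    (by rw [← h1 i, h, zero_pow hn0, mul_zero])
  have hx' : (fun i => x i / lam i) ∈ aff n m p := by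
    rw [← mem_affc_iff (m := m) hb h1]
    convert hx using 2 with i
    rw [mul_div_cancel₀ _ (h0 i)]
  have h2 := aff_smooth hn hp hN hx'
  rw [Fintype.linearIndependent_iff] at h2 ⊢
  intro g hg
  refine h2 g ?_
  ext i
  have h3 := congrFun hg i
  simp only [Finset.sum_apply, Pi.smul_apply, smul_eq_mul, Pi.zero_apply] at h3 ⊢
  have h4 : ∀ j : Fin (m + 1), MvPolynomial.eval x (MvPolynomial.pderiv i (form n p c j)) =
      (b / lam i) * MvPolynomial.eval (fun i => x i / lam i) (MvPolynomial.pderiv i (form n p (wt p) j)) := by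
    intro j
    rw [pderiv_form, pderiv_form]
    obtain ⟨n', rfl⟩ : ∃ n', n = n' + 1 := ⟨n - 1, by omega⟩
    have h5 : c i = b * wt p i / lam i ^ (n' + 1) := by
      rw [← h1 i, mul_div_cancel_right₀ _ (pow_ne_zero _ (h0 i))]
    rw [h5]
    have := h0 i
    simp only [Nat.add_sub_cancel]
    rw [div_pow, pow_succ]
    field_simp
  rw [Finset.sum_congr rfl fun j _ => by rw [h4 j]] at h3
  have h6 : (b / lam i) * ∑ j, g j * MvPolynomial.eval (fun i => x i / lam i)
      (MvPolynomial.pderiv i (form n p (wt p) j)) = 0 := by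
    rw [← h3, Finset.mul_sum]
    exact Finset.sum_congr rfl fun j _ => by ring
  exact (mul_eq_zero.mp h6).resolve_left (div_ne_zero hb (h0 i))

end Pool.Agent.U436.HP
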