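import Pool.Agent.U436.HP.Poly

/-!
# Diagonal complete intersections with Vandermonde coefficients are Hadamard powers of curves
-/

set_option autoImplicit false

namespace Pool.Agent.U436.HP

open Polynomial Finset

variable {k : Type*} [Field k] {N : ℕ}

/-- The diagonal form `∑ i, c i * p i ^ j * X i ^ n` of degree `n` in `N` variables. -/
noncomputable def form (n : ℕ) (p c : Fin N → k) (j : ℕ) : MvPolynomial (Fin N) k :=
  ∑ i, MvPolynomial.C (c i * p i ^ j) * MvPolynomial.X i ^ n

/-- The homogeneous coordinates of the points of the projective variety given by the `m` equations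
`∑ i, c i * p i ^ j * x i ^ n = 0`, `j < m`, in the projective space of dimension `N - 1`. -/
def pts (n m : ℕ) (p c : Fin N → k) : Set (Fin N → k) :=
  {x | x ≠ 0 ∧ ∀ j < m, MvPolynomial.eval x (form n p c j) = 0}

lemma eval_form (n : ℕ) (p c : Fin N → k) (j : ℕ) (x : Fin N → k) :
    MvPolynomial.eval x (form n p c j) = ∑ i, c i * p i ^ j * x i ^ n := by
  simp [form]

lemma pderiv_form (n : ℕ) (p c : Fin N → k) (j : ℕ) (x : Fin N → k) (i : Fin N) :
    MvPolynomial.eval x (MvPolynomial.pderiv i (form n p c j)) = n * (c i * p i ^ j) * x i ^ (n - 1) := by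
  classical
  unfold form
  rw [map_sum, map_sum, Finset.sum_eq_single i]
  · rw [MvPolynomial.pderiv_C_mul, MvPolynomial.pderiv_pow, MvPolynomial.pderiv_X_self]
    simp; ring
  · intro l _ hl
    rw [MvPolynomial.pderiv_C_mul, MvPolynomial.pderiv_pow, MvPolynomial.pderiv_X_of_ne hl]
    simp
  · intro h; exact absurd (mem_univ i) h

/-- A point of the variety has the form `c i * x i ^ n = wt p i * P (p i)`. -/
lemma mem_pts_iff {n m d : ℕ} {p c : Fin N → k} (hp : Function.Injective p) (hN : m + d + 1 = N)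
    {x : Fin N → k} : x ∈ pts n m p c ↔
      x ≠ 0 ∧ ∃ P : k[X], P.natDegree ≤ d ∧ ∀ i, wt p i * P.eval (p i) = c i * x i ^ n := by
  unfold pts
  rw [Set.mem_ofPred_eq]
  refine and_congr_right fun _ => ?_
  have h := exists_poly_iff hp hN (fun i => (wt p i)⁻¹ * (c i * x i ^ n))
  have e1 : (∀ j < m, MvPolynomial.eval x (form n p c j) = 0) ↔
      ∀ j < m, ∑ i, wt p i * p i ^ j * ((wt p i)⁻¹ * (c i * x i ^ n)) = 0 := by
    refine forall_congr' fun j => forall_congr' fun _ => ?_
    rw [eval_form]
    have : ∀ i, c i * p i ^ j * x i ^ n = wt p i * p i ^ j * ((wt p i)⁻¹ * (c i * x i ^ n)) := by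
      intro i
      have := wt_ne_zero hp i
      field_simp
    rw [Finset.sum_congr rfl fun i _ => this i]
  rw [e1, h]
  refine exists_congr fun P => and_congr_right fun _ => forall_congr' fun i => ?_
  have := wt_ne_zero hp i
  rw [eq_inv_mul_iff_mul_eq₀ this]

lemma poly_eq_zero {p : Fin N → k} (hp : Function.Injective p) {P : k[X]} (hP : P.natDegree < N)
    (h : ∀ i, P.eval (p i) = 0) : P = 0 := by
  refine Polynomial.eq_zero_of_natDegree_lt_card_of_eval_eq_zero P hp h ?_
  simpa using hP

/-- The points of the variety have at most `d` coordinates equal to zero; the Jacobian matrix has rank `m`. -/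
theorem smooth {n m d : ℕ} (hn : (n : k) ≠ 0) {p c : Fin N → k} (hp : Function.Injective p)
    (hc : ∀ i, c i ≠ 0) (hN : m + d + 1 = N) {x : Fin N → k} (hx : x ∈ pts n m p c) :
    LinearIndependent k (fun (j : Fin m) (i : Fin N) =>
      MvPolynomial.eval x (MvPolynomial.pderiv i (form n p c j))) := by
  classical
  have hn0 : n ≠ 0 := by rintro rfl; simp at hn
  obtain ⟨hx0, P, hPd, hP⟩ := (mem_pts_iff hp hN).mp hx
  have hP0 : P ≠ 0 := by
    rintro rfl
    apply hx0
    funext i
    have := hP i
    simp only [eval_zero, mul_zero] at this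
    have := (mul_eq_zero.mp this.symm).resolve_left (hc i)
    simpa using pow_eq_zero_iff hn0 |>.mp this
  rw [Fintype.linearIndependent_iff]
  intro g hg
  -- the polynomial with coefficients `g`
  set Q : k[X] := ∑ j : Fin m, C (g j) * X ^ (j : ℕ) with hQ
  have hQP : ∀ i, (Q * P).eval (p i) = 0 := by
    intro i
    rw [eval_mul]
    by_cases hxi : x i = 0
    · have := hP i
      rw [hxi, zero_pow hn0, mul_zero] at this
      rw [(mul_eq_zero.mp this).resolve_left (wt_ne_zero hp i), mul_zero]
    · have h1 := congrFun hg i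
      simp only [Finset.sum_apply, Pi.smul_apply, smul_eq_mul, Pi.zero_apply] at h1
      rw [Finset.sum_congr rfl fun j _ => by rw [pderiv_form]] at h1
      have h2 : Q.eval (p i) * (n * c i * x i ^ (n - 1)) = 0 := by
        rw [← h1, hQ, eval_finsetSum, Finset.sum_mul]
        refine Finset.sum_congr rfl fun j _ => ?_
        rw [eval_mul, eval_C, eval_pow, eval_X]; ring
      have h3 : (n * c i * x i ^ (n - 1) : k) ≠ 0 :=
        mul_ne_zero (mul_ne_zero hn (hc i)) (pow_ne_zero _ hxi)
      rw [(mul_eq_zero.mp h2).resolve_right h3, zero_mul]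
  have hQd : Q.natDegree ≤ m - 1 := by
    rw [hQ]
    refine natDegree_sum_le_of_forall_le _ _ fun j _ => ?_
    refine (natDegree_C_mul_X_pow_le _ _).trans ?_
    have := j.2; omega
  rcases Nat.eq_zero_or_pos m with hm | hm
  · intro j; exact absurd j.2 (by omega)
  have hQP0 : Q * P = 0 := poly_eq_zero hp (lt_of_le_of_lt natDegree_mul_le (by omega)) hQP
  have hQ0 : Q = 0 := (mul_eq_zero.mp hQP0).resolve_right hP0
  intro j
  have h4 : Q.coeff (j : ℕ) = g j := by
    rw [hQ, finsetSum_coeff, Finset.sum_eq_single j]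
    · simp
    · intro l _ hl
      rw [coeff_C_mul, coeff_X_pow, if_neg (fun h => hl (Fin.ext h.symm)), mul_zero]
    · intro h; exact absurd (mem_univ j) h
  rw [← h4, hQ0, coeff_zero]

/-- The homogeneous coordinates of the points of the curve `C`: it is given by `N - 2` diagonal equations of
degree `n` in the projective space of dimension `N - 1`, with the coefficients `p i ^ j / ∏ l ≠ i, (p i - p l)`. -/
def curve (n : ℕ) (p : Fin N → k) : Set (Fin N → k) := pts n (N - 2) p (wt p)

lemma mem_curve_iff {n : ℕ} {p : Fin N → k} (hp : Function.Injective p) (hN : 2 ≤ N) {y : Fin N → k} :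
    y ∈ curve n p ↔ y ≠ 0 ∧ ∃ L : k[X], L.natDegree ≤ 1 ∧ ∀ i, L.eval (p i) = y i ^ n := by
  unfold curve
  rw [mem_pts_iff hp (show N - 2 + 1 + 1 = N by omega)]
  refine and_congr_right fun _ => exists_congr fun L => and_congr_right fun _ => forall_congr' fun i => ?_
  exact mul_right_inj' (wt_ne_zero hp i)

/-- The linear polynomial of a point of the curve. -/
lemma curve_poly {n : ℕ} (hn : n ≠ 0) {p : Fin N → k} (hp : Function.Injective p) (hN : 2 ≤ N)
    {y : Fin N → k} (hy : y ∈ curve n p) :
    ∃ L : k[X], (L ≠ 0 ∧ L.natDegree ≤ 1) ∧ ∀ i, L.eval (p i) = y i ^ n := by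
  obtain ⟨hy0, L, hL, h⟩ := (mem_curve_iff hp hN).mp hy
  refine ⟨L, ⟨?_, hL⟩, h⟩
  rintro rfl
  apply hy0
  funext i
  have := h i
  rw [eval_zero] at this
  simpa using (pow_eq_zero_iff hn).mp this.symm

lemma mem_curve_of_poly {n : ℕ} (hn : n ≠ 0) {p : Fin N → k} (hp : Function.Injective p) (hN : 2 ≤ N)
    {y : Fin N → k} {L : k[X]} (hL0 : L ≠ 0) (hL : L.natDegree ≤ 1) (h : ∀ i, L.eval (p i) = y i ^ n) :
    y ∈ curve n p := by
  refine (mem_curve_iff hp hN).mpr ⟨?_, L, hL, h⟩
  rintro rfl
  refine hL0 (poly_eq_zero hp (by omega) fun i => ?_)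
  rw [h i]; simp [hn]

variable {n m d : ℕ} {p c lam : Fin N → k}

/-- The coordinatewise product of `d` points of the curve is a point of the variety. -/
theorem prod_mem (hn : n ≠ 0) (hp : Function.Injective p) (hd : 1 ≤ d)
    (hN : m + d + 1 = N) (hlam : ∀ i, c i * lam i ^ n = wt p i) (y : Fin d → Fin N → k)
    (hy : ∀ j, y j ∈ curve n p) : (fun i => lam i * ∏ j, y j i) ∈ pts n m p c := by
  have hN2 : 2 ≤ N := by omega
  choose L hL hLe using fun j => curve_poly hn hp hN2 (hy j)
  have hP0 : ∏ j, L j ≠ 0 := Finset.prod_ne_zero_iff.mpr fun j _ => (hL j).1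
  have hPd : (∏ j, L j).natDegree ≤ d := by
    rw [natDegree_prod _ _ fun j _ => (hL j).1]
    refine (Finset.sum_le_sum fun j _ => (hL j).2).trans ?_
    simp
  have hval : ∀ i, wt p i * (∏ j, L j).eval (p i) = c i * (lam i * ∏ j, y j i) ^ n := by
    intro i
    rw [eval_prod, ← hlam i, mul_pow, ← Finset.prod_pow, Finset.prod_congr rfl fun j _ => hLe j i]
    ring
  refine (mem_pts_iff hp hN).mpr ⟨fun h0 => hP0 ?_, _, hPd, hval⟩
  refine poly_eq_zero hp (by omega) fun i => ?_
  have h1 := hval i
  have h2 : lam i * ∏ j, y j i = 0 := congrFun h0 i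
  rw [h2, zero_pow hn, mul_zero] at h1
  exact (mul_eq_zero.mp h1).resolve_left (wt_ne_zero hp i)

/-- Every point of the variety is the coordinatewise product of `d` points of the curve. -/
theorem exists_prod [IsAlgClosed k] (hn : n ≠ 0) (hp : Function.Injective p) (hc : ∀ i, c i ≠ 0) (hd : 1 ≤ d)
    (hN : m + d + 1 = N) (hlam : ∀ i, c i * lam i ^ n = wt p i) {x : Fin N → k} (hx : x ∈ pts n m p c) :
    ∃ y : Fin d → Fin N → k, (∀ j, y j ∈ curve n p) ∧ ∀ i, x i = lam i * ∏ j, y j i := by
  have hN2 : 2 ≤ N := by omega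
  obtain ⟨hx0, P, hPd, hP⟩ := (mem_pts_iff hp hN).mp hx
  have hP0 : P ≠ 0 := by
    rintro rfl
    apply hx0
    funext i
    have := hP i
    simp only [eval_zero, mul_zero] at this
    have := (mul_eq_zero.mp this.symm).resolve_left (hc i)
    simpa using pow_eq_zero_iff hn |>.mp this
  obtain ⟨L, s, hs, hL, hPL⟩ := exists_linear_factors d P hP0 hPd
  choose y hy using fun (j : Fin d) (i : Fin N) => IsAlgClosed.exists_pow_nat_eq ((L j).eval (p i))
    (Nat.pos_of_ne_zero hn)
  obtain ⟨s', hs'⟩ := IsAlgClosed.exists_pow_nat_eq s (Nat.pos_of_ne_zero hn)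
  have hpow : ∀ i, x i ^ n = (lam i * s' * ∏ j, y j i) ^ n := by
    intro i
    have h1 := hP i
    rw [hPL, eval_mul, eval_C, eval_prod, ← hlam i] at h1
    have h2 : c i * x i ^ n = c i * (lam i * s' * ∏ j, y j i) ^ n := by
      rw [← h1, mul_pow, mul_pow, hs', ← Finset.prod_pow, Finset.prod_congr rfl fun j _ => hy j i]
      ring
    exact mul_left_cancel₀ (hc i) h2
  have hz : ∀ i, ∃ z : k, z ^ n = 1 ∧ x i = z * (lam i * s' * ∏ j, y j i) := by
    intro i
    by_cases h0 : lam i * s' * ∏ j, y j i = 0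
    · refine ⟨1, one_pow n, ?_⟩
      have := hpow i
      rw [h0, zero_pow hn] at this
      rw [(pow_eq_zero_iff hn).mp this, h0, mul_zero]
    · refine ⟨x i / (lam i * s' * ∏ j, y j i), ?_, ?_⟩
      · rw [div_pow, hpow i, div_self (pow_ne_zero _ h0)]
      · rw [div_mul_cancel₀ _ h0]
  choose z hz1 hzx using hz
  let j0 : Fin d := ⟨0, hd⟩
  refine ⟨fun j i => if j = j0 then z i * s' * y j i else y j i, fun j => ?_, fun i => ?_⟩
  · by_cases hj : j = j0
    · simp only [if_pos hj]
      refine mem_curve_of_poly hn hp hN2 (L := C s * L j) (mul_ne_zero (C_ne_zero.mpr hs) (hL j).1) ?_ ?_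
      · rw [natDegree_C_mul hs]; exact (hL j).2
      · intro i
        rw [eval_mul, eval_C, mul_pow, mul_pow, hz1, hs', hy, one_mul]
    · simp only [if_neg hj]
      exact mem_curve_of_poly hn hp hN2 (hL j).1 (hL j).2 fun i => (hy j i).symm
  · rw [hzx i]
    have : ∏ j, (if j = j0 then z i * s' * y j i else y j i) = z i * s' * ∏ j, y j i := by
      have h3 : ∀ j, (if j = j0 then z i * s' * y j i else y j i) = (if j = j0 then z i * s' else 1) * y j i := by
        intro j; split_ifs <;> simp
      rw [Finset.prod_congr rfl fun j _ => h3 j, Finset.prod_mul_distrib, Finset.prod_ite_eq']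
      simp
    rw [this]; ring

/-- The fibres of the product map are the orbits of the group of the pairs of a permutation `σ` and
`d` vectors `ζ j` of `n`-th roots of unity whose product is a scalar vector. -/
theorem prod_eq_iff [IsAlgClosed k] (hn : n ≠ 0) (hp : Function.Injective p) (hd : 1 ≤ d)
    (hN : m + d + 1 = N) (hlam0 : ∀ i, lam i ≠ 0) {y y' : Fin d → Fin N → k}
    (hy : ∀ j, y j ∈ curve n p) (hy' : ∀ j, y' j ∈ curve n p) :
    (∃ t : k, t ≠ 0 ∧ ∀ i, lam i * ∏ j, y' j i = t * (lam i * ∏ j, y j i)) ↔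
      ∃ (σ : Equiv.Perm (Fin d)) (ζ : Fin d → Fin N → k) (τ : k) (s : Fin d → k),
        (∀ j i, ζ j i ^ n = 1) ∧ (∀ i, ∏ j, ζ j i = τ) ∧ (∀ j, s j ≠ 0) ∧
          ∀ j i, y' j i = s j * (ζ j i * y (σ j) i) := by
  classical
  have hN2 : 2 ≤ N := by omega
  constructor
  · rintro ⟨t, ht, h⟩
    have h' : ∀ i, ∏ j, y' j i = t * ∏ j, y j i := by
      intro i
      refine mul_left_cancel₀ (hlam0 i) ?_
      rw [h i]; ring
    choose L hL hLe using fun j => curve_poly hn hp hN2 (hy j)
    choose L' hL' hLe' using fun j => curve_poly hn hp hN2 (hy' j)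
    have hdeg : ∀ (M : Fin d → k[X]), (∀ j, M j ≠ 0 ∧ (M j).natDegree ≤ 1) → (∏ j, M j).natDegree ≤ d := by
      intro M hM
      rw [natDegree_prod _ _ fun j _ => (hM j).1]
      refine (Finset.sum_le_sum fun j _ => (hM j).2).trans ?_
      simp
    have htn : t ^ n ≠ 0 := pow_ne_zero _ ht
    have hprod : ∏ j, L' j = C (t ^ n) * ∏ j, L j := by
      rw [← sub_eq_zero]
      refine poly_eq_zero hp ?_ fun i => ?_
      · refine lt_of_le_of_lt (natDegree_sub_le _ _) (max_lt ?_ ?_)
        · have := hdeg L' hL'; omega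
        · rw [natDegree_C_mul htn]; have := hdeg L hL; omega
      · rw [eval_sub, eval_mul, eval_C, eval_prod, eval_prod, Finset.prod_congr rfl fun j _ => hLe' j i,
          Finset.prod_congr rfl fun j _ => hLe j i, Finset.prod_pow, Finset.prod_pow, h' i, mul_pow, sub_self]
    have hprod2 : ∏ j, L j = C ((t ^ n)⁻¹) * ∏ j, L' j := by
      rw [hprod, ← mul_assoc, ← C_mul, inv_mul_cancel₀ htn, C_1, one_mul]
    obtain ⟨σ, hσ⟩ := exists_perm (inv_ne_zero htn) hL hL' hprod2
    choose u hu0 hu using hσ
    choose s hs using fun j => IsAlgClosed.exists_pow_nat_eq (u j) (Nat.pos_of_ne_zero hn)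
    have hs0 : ∀ j, s j ≠ 0 := by
      intro j h0
      have := hs j
      rw [h0, zero_pow hn] at this
      exact hu0 j this.symm
    have hpow : ∀ j i, y' j i ^ n = (s j * y (σ j) i) ^ n := by
      intro j i
      rw [← hLe', hu, eval_mul, eval_C, hLe, mul_pow, hs]
    -- the roots of unity, first choice
    have hz0 : ∀ j i, ∃ z : k, z ^ n = 1 ∧ y' j i = s j * (z * y (σ j) i) := by
      intro j i
      by_cases h0 : y (σ j) i = 0
      · refine ⟨1, one_pow n, ?_⟩
        have := hpow j i
        rw [h0, mul_zero, zero_pow hn] at this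
        rw [(pow_eq_zero_iff hn).mp this, h0]; ring
      · have h1 : s j * y (σ j) i ≠ 0 := mul_ne_zero (hs0 j) h0
        refine ⟨y' j i / (s j * y (σ j) i), ?_, ?_⟩
        · rw [div_pow, hpow j i, div_self (pow_ne_zero _ h1)]
        · have e : s j * (y' j i / (s j * y (σ j) i) * y (σ j) i) =
              y' j i / (s j * y (σ j) i) * (s j * y (σ j) i) := by ring
          rw [e, div_mul_cancel₀ _ h1]
    choose z hz1 hz using hz0
    -- a coordinate where nothing vanishes
    have hex : ∃ i0, ∏ j, y j i0 ≠ 0 := by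
      by_contra hcon
      push Not at hcon
      refine (Finset.prod_ne_zero_iff.mpr fun j _ => (hL j).1 : ∏ j, L j ≠ 0) ?_
      refine poly_eq_zero hp ?_ fun i => ?_
      · have := hdeg L hL; omega
      · rw [eval_prod, Finset.prod_congr rfl fun j _ => hLe j i, Finset.prod_pow, hcon i, zero_pow hn]
    obtain ⟨i0, hi0⟩ := hex
    set τ : k := ∏ j, z j i0 with hτ
    have hτn : τ ^ n = 1 := by rw [hτ, ← Finset.prod_pow]; simp [hz1]
    have hS0 : ∏ j, s j ≠ 0 := Finset.prod_ne_zero_iff.mpr fun j _ => hs0 j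
    have hcomp : ∀ i, (∏ j, s j) * (∏ j, z j i) * ∏ j, y j i = t * ∏ j, y j i := by
      intro i
      rw [← h' i, Finset.prod_congr rfl fun j _ => hz j i, Finset.prod_mul_distrib, Finset.prod_mul_distrib,
        Equiv.prod_comp σ (fun j => y j i)]
      ring
    have hgood : ∀ i, ∏ j, y j i ≠ 0 → ∏ j, z j i = τ := by
      intro i hi
      have h1 := mul_right_cancel₀ hi (hcomp i)
      have h2 := mul_right_cancel₀ hi0 (hcomp i0)
      exact mul_left_cancel₀ hS0 (h1.trans h2.symm)
    have hfin : ∀ i, ∃ w : Fin d → k, (∀ j, w j ^ n = 1) ∧ (∀ j, y' j i = s j * (w j * y (σ j) i)) ∧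
        ∏ j, w j = τ := by
      intro i
      by_cases hi : ∏ j, y j i = 0
      · obtain ⟨j1, _, hj1⟩ := Finset.prod_eq_zero_iff.mp hi
        set j0 := σ.symm j1 with hj0
        have hy0 : y (σ j0) i = 0 := by rw [hj0, Equiv.apply_symm_apply]; exact hj1
        have hz0 : ∀ j, z j i ≠ 0 := by
          intro j h0
          have := hz1 j i
          rw [h0, zero_pow hn] at this
          exact zero_ne_one this
        refine ⟨Function.update (fun j => z j i) j0 (τ * (∏ j ∈ univ.erase j0, z j i)⁻¹), fun j => ?_,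
          fun j => ?_, ?_⟩
        · by_cases hj : j = j0
          · subst hj
            rw [Function.update_self, mul_pow, hτn, one_mul, inv_pow, ← Finset.prod_pow]
            simp [hz1]
          · rw [Function.update_of_ne hj]; exact hz1 j i
        · by_cases hj : j = j0
          · rw [hj, hz j0 i, hy0]; ring
          · rw [Function.update_of_ne hj]; exact hz j i
        · rw [← Finset.mul_prod_erase univ _ (mem_univ j0), Function.update_self]
          rw [Finset.prod_congr rfl fun j hj => Function.update_of_ne (Finset.ne_of_mem_erase hj) _ _]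
          rw [mul_assoc, inv_mul_cancel₀ (Finset.prod_ne_zero_iff.mpr fun j _ => hz0 j), mul_one]
      · exact ⟨fun j => z j i, fun j => hz1 j i, fun j => hz j i, hgood i hi⟩
    choose w hw1 hw2 hw3 using hfin
    exact ⟨σ, fun j i => w i j, τ, s, fun j i => hw1 i j, hw3, hs0, fun j i => hw2 i j⟩
  · rintro ⟨σ, ζ, τ, s, hζ, hτ, hs, h⟩
    have hτn : τ ^ n = 1 := by
      rw [← hτ ⟨0, by omega⟩, ← Finset.prod_pow]; simp [hζ]
    have hτ0 : τ ≠ 0 := by
      rintro rfl
      rw [zero_pow hn] at hτn
      exact zero_ne_one hτn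
    refine ⟨(∏ j, s j) * τ, mul_ne_zero (Finset.prod_ne_zero_iff.mpr fun j _ => hs j) hτ0, fun i => ?_⟩
    rw [Finset.prod_congr rfl fun j _ => h j i, Finset.prod_mul_distrib, Finset.prod_mul_distrib, hτ i,
      Equiv.prod_comp σ (fun j => y j i)]
    ring

/-- Two diagonal forms: every smooth complete intersection is of the form considered. -/
theorem two_forms [Infinite k] {a b : Fin N → k} (hab : ∀ i l, i ≠ l → a i * b l - a l * b i ≠ 0)
    (hN : 2 ≤ N) (n : ℕ) :
    ∃ p c : Fin N → k, Function.Injective p ∧ (∀ i, c i ≠ 0) ∧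
      pts n 2 p c = {x | x ≠ 0 ∧ ∑ i, a i * x i ^ n = 0 ∧ ∑ i, b i * x i ^ n = 0} := by
  classical
  -- a parameter `t` such that all `a i + t b i` are nonzero
  obtain ⟨t, ht⟩ : ∃ t : k, ∀ i, a i + t * b i ≠ 0 := by
    obtain ⟨t, ht⟩ := Infinite.exists_notMem_finset (univ.image fun i => -a i / b i)
    refine ⟨t, fun i h => ?_⟩
    by_cases hb : b i = 0
    · have ha : a i = 0 := by simpa [hb] using h
      obtain ⟨l, hl⟩ : ∃ l : Fin N, i ≠ l := by
        by_contra hcon
        push Not at hcon
        have h0 := hcon ⟨0, by omega⟩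
        have h1 := hcon ⟨1, by omega⟩
        rw [h0] at h1
        exact absurd (congrArg Fin.val h1) (by simp)
      exact hab i l hl (by rw [ha, hb]; ring)
    · refine ht (Finset.mem_image.mpr ⟨i, mem_univ i, ?_⟩)
      field_simp
      linear_combination -h
  refine ⟨fun i => b i / (a i + t * b i), fun i => a i + t * b i, ?_, ht, ?_⟩
  · intro i l h
    by_contra hil
    refine hab i l hil ?_
    have hi := ht i
    have hl := ht l
    have h' : b i / (a i + t * b i) = b l / (a l + t * b l) := h
    rw [div_eq_div_iff hi hl] at h'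
    linear_combination -h'
  · ext x
    unfold pts
    rw [Set.mem_ofPred_eq, Set.mem_ofPred_eq]
    refine and_congr_right fun _ => ?_
    have e0 : ∑ i, (a i + t * b i) * x i ^ n = ∑ i, a i * x i ^ n + t * ∑ i, b i * x i ^ n := by
      rw [Finset.mul_sum, ← Finset.sum_add_distrib]
      exact Finset.sum_congr rfl fun i _ => by ring
    have e1 : ∑ i, (a i + t * b i) * (b i / (a i + t * b i)) * x i ^ n = ∑ i, b i * x i ^ n := by
      refine Finset.sum_congr rfl fun i _ => ?_
      rw [mul_div_cancel₀ _ (ht i)]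
    constructor
    · intro h
      have h0 := h 0 (by norm_num)
      have h1 := h 1 (by norm_num)
      rw [eval_form] at h0 h1
      simp only [pow_zero, mul_one, pow_one] at h0 h1
      rw [e0] at h0
      rw [e1] at h1
      rw [h1, mul_zero, add_zero] at h0
      exact ⟨h0, h1⟩
    · rintro ⟨h0, h1⟩ j hj
      rw [eval_form]
      interval_cases j
      · simp only [pow_zero, mul_one]
        rw [e0, h0, h1]; ring
      · simp only [pow_one]
        rw [e1, h1]

end Pool.Agent.U436.HP
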