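import Mathlib

/-!
# Values of polynomials of small degree, and products of linear forms

Auxiliary lemmas: the values of the polynomials of degree at most `d` at `N` points as the solutions of
`N - 1 - d` linear equations, factorization of a binary form of degree `d`, and uniqueness of the factorization.
-/

set_option autoImplicit false

namespace Pool.Agent.U436.HP

open Polynomial Finset

variable {k : Type*} [Field k] {N : ℕ}

/-- The weights of the divided difference of order `N - 1`. -/
noncomputable def wt (p : Fin N → k) (i : Fin N) : k := (∏ l ∈ univ.erase i, (p i - p l))⁻¹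

lemma wt_ne_zero {p : Fin N → k} (hp : Function.Injective p) (i : Fin N) : wt p i ≠ 0 := by
  unfold wt
  refine inv_ne_zero (Finset.prod_ne_zero_iff.mpr fun l hl => sub_ne_zero.mpr fun h => ?_)
  exact (Finset.mem_erase.mp hl).1 (hp h).symm

lemma sum_wt_eq_coeff {p : Fin N → k} (hp : Function.Injective p) {Q : k[X]} (hQ : Q.natDegree < N) :
    ∑ i, wt p i * Q.eval (p i) = Q.coeff (N - 1) := by
  have h := Lagrange.coeff_eq_sum (s := (univ : Finset (Fin N))) (v := p) (hp.injOn) (P := Q) (by
    rw [card_univ, Fintype.card_fin]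
    exact lt_of_le_of_lt degree_le_natDegree (by exact_mod_cast hQ)) 
  rw [card_univ, Fintype.card_fin] at h
  rw [h]
  refine Finset.sum_congr rfl fun i _ => ?_
  rw [wt, div_eq_mul_inv, mul_comm]

/-- The values of the polynomials of degree at most `d`. -/
lemma exists_poly_iff {p : Fin N → k} (hp : Function.Injective p) {m d : ℕ} (hN : m + d + 1 = N)
    (w : Fin N → k) :
    (∀ j < m, ∑ i, wt p i * p i ^ j * w i = 0) ↔
      ∃ P : k[X], P.natDegree ≤ d ∧ ∀ i, P.eval (p i) = w i := by
  constructor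
  · intro h
    set P := Lagrange.interpolate univ p w with hP
    have hev : ∀ i, P.eval (p i) = w i := fun i =>
      Lagrange.eval_interpolate_at_node w hp.injOn (mem_univ i)
    have hdeg : P.natDegree < N := by
      have h1 := Lagrange.degree_interpolate_lt (s := (univ : Finset (Fin N))) w (hp.injOn)
      rw [card_univ, Fintype.card_fin] at h1
      by_cases h0 : P = 0
      · rw [h0, natDegree_zero]; omega
      · exact (natDegree_lt_iff_degree_lt h0).mpr h1
    refine ⟨P, ?_, hev⟩
    by_contra hlt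
    push Not at hlt
    have hj := h (N - 1 - P.natDegree) (by omega)
    have h2 : ∑ i, wt p i * (P * X ^ (N - 1 - P.natDegree)).eval (p i) = 0 := by
      rw [← hj]
      refine Finset.sum_congr rfl fun i _ => ?_
      rw [eval_mul, eval_pow, eval_X, hev]; ring
    have hP0 : P ≠ 0 := by
      intro h0; rw [h0, natDegree_zero] at hlt; omega
    have h3 : (P * X ^ (N - 1 - P.natDegree)).natDegree = N - 1 := by
      rw [natDegree_mul_X_pow _ hP0]; omega
    rw [sum_wt_eq_coeff hp (by rw [h3]; omega)] at h2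
    have h4 : (P * X ^ (N - 1 - P.natDegree)).coeff (N - 1) = P.coeff P.natDegree := by
      rw [coeff_mul_X_pow']
      rw [if_pos (by omega)]
      congr 1; omega
    rw [h4] at h2
    exact hP0 (leadingCoeff_eq_zero.mp h2)
  · rintro ⟨P, hP, hev⟩ j hj
    have h1 : (P * X ^ j).natDegree < N - 1 :=
      lt_of_le_of_lt (natDegree_mul_le.trans (add_le_add hP (natDegree_X_pow_le j))) (by omega)
    have h2 := sum_wt_eq_coeff hp (Q := P * X ^ j) (by omega)
    rw [coeff_eq_zero_of_natDegree_lt h1] at h2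
    rw [← h2]
    refine Finset.sum_congr rfl fun i _ => ?_
    rw [eval_mul, eval_pow, eval_X, hev]; ring

/-- Factorization of a binary form of degree `d`. -/
lemma exists_linear_factors [IsAlgClosed k] : ∀ (d : ℕ) (P : k[X]), P ≠ 0 → P.natDegree ≤ d →
    ∃ (L : Fin d → k[X]) (s : k), s ≠ 0 ∧ (∀ j, L j ≠ 0 ∧ (L j).natDegree ≤ 1) ∧ P = C s * ∏ j, L j := by
  intro d
  induction d with
  | zero =>
    intro P hP hd
    have h1 : P = C (P.coeff 0) := eq_C_of_natDegree_le_zero hd
    refine ⟨fun j => j.elim0, P.coeff 0, fun h => hP ?_, fun j => j.elim0, ?_⟩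
    · rw [h1, h, C_0]
    · simpa using h1
  | succ d ih =>
    intro P hP hd
    by_cases hd' : P.natDegree ≤ d
    · obtain ⟨L, s, hs, hL, h⟩ := ih P hP hd'
      refine ⟨Fin.cons 1 L, s, hs, fun j => ?_, ?_⟩
      · refine Fin.cases ?_ (fun j => ?_) j
        · simp
        · simpa using hL j
      · rw [Fin.prod_univ_succ]; simpa using h
    · have hdeg : P.degree ≠ 0 := by
        intro h0
        have h1 : P.natDegree = 0 := natDegree_eq_zero_iff_degree_le_zero.mpr h0.le
        exact hd' (by omega)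
      obtain ⟨r, hr⟩ := IsAlgClosed.exists_root P hdeg
      obtain ⟨Q, hQ⟩ := dvd_iff_isRoot.mpr hr
      have hQ0 : Q ≠ 0 := by rintro rfl; simp at hQ; exact hP hQ
      have hQd : Q.natDegree ≤ d := by
        have := congrArg natDegree hQ
        rw [natDegree_mul (X_sub_C_ne_zero r) hQ0, natDegree_X_sub_C] at this
        omega
      obtain ⟨L, s, hs, hL, h⟩ := ih Q hQ0 hQd
      refine ⟨Fin.cons (X - C r) L, s, hs, fun j => ?_, ?_⟩
      · refine Fin.cases ?_ (fun j => ?_) j
        · exact ⟨X_sub_C_ne_zero r, by simp⟩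
        · simpa using hL j
      · rw [Fin.prod_univ_succ]
        simp only [Fin.cons_zero, Fin.cons_succ]
        rw [hQ, h]; ring

/-- The zero of a nonzero linear form on the projective line. -/
noncomputable def zer (P : k[X]) : Option k :=
  if P.natDegree = 0 then none else some (-((P.coeff 1)⁻¹ * P.coeff 0))

lemma zer_eq_none {P : k[X]} : zer P = none ↔ P.natDegree = 0 := by
  unfold zer; split_ifs with h <;> simp [h]

lemma count_roots [DecidableEq k] {P : k[X]} (h1 : P.natDegree ≤ 1) (r : k) :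
    P.roots.count r = if zer P = some r then 1 else 0 := by
  unfold zer
  by_cases h : P.natDegree = 0
  · rw [if_pos h]
    have : P = C (P.coeff 0) := eq_C_of_natDegree_le_zero h.le
    rw [this]; simp
  · rw [if_neg h]
    have hdeg : P.degree = 1 := by
      have h2 : P.natDegree = 1 := by omega
      have hP : P ≠ 0 := by rintro rfl; simp at h
      rw [degree_eq_natDegree hP, h2]; rfl
    rw [roots_degree_eq_one hdeg, Multiset.count_singleton]
    by_cases hr : r = -((P.coeff 1)⁻¹ * P.coeff 0)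
    · rw [if_pos hr, if_pos (by rw [hr])]
    · rw [if_neg hr, if_neg (fun h' => hr (Option.some.inj h').symm)]

lemma eq_C_mul_of_zer_eq {P Q : k[X]} (hP : P ≠ 0) (hP1 : P.natDegree ≤ 1) (hQ : Q ≠ 0)
    (hQ1 : Q.natDegree ≤ 1) (h : zer P = zer Q) : ∃ t : k, t ≠ 0 ∧ Q = C t * P := by
  by_cases hd : P.natDegree = 0
  · have hd' : Q.natDegree = 0 := zer_eq_none.mp (h ▸ zer_eq_none.mpr hd)
    have e1 : P = C (P.coeff 0) := eq_C_of_natDegree_le_zero hd.le
    have e2 : Q = C (Q.coeff 0) := eq_C_of_natDegree_le_zero hd'.le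
    have n1 : P.coeff 0 ≠ 0 := fun h0 => hP (by rw [e1, h0, C_0])
    have n2 : Q.coeff 0 ≠ 0 := fun h0 => hQ (by rw [e2, h0, C_0])
    refine ⟨Q.coeff 0 / P.coeff 0, div_ne_zero n2 n1, ?_⟩
    rw [e1, e2, ← C_mul]
    simp only [coeff_C_zero]
    rw [div_mul_cancel₀ _ n1]
  · have hd' : Q.natDegree ≠ 0 := fun h0 => hd (zer_eq_none.mp (h.trans (zer_eq_none.mpr h0)))
    have e1 : P = C (P.coeff 1) * X + C (P.coeff 0) := eq_X_add_C_of_natDegree_le_one hP1
    have e2 : Q = C (Q.coeff 1) * X + C (Q.coeff 0) := eq_X_add_C_of_natDegree_le_one hQ1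
    have n1 : P.coeff 1 ≠ 0 := by
      have : P.natDegree = 1 := by omega
      rw [← this]; exact leadingCoeff_ne_zero.mpr hP
    have n2 : Q.coeff 1 ≠ 0 := by
      have : Q.natDegree = 1 := by omega
      rw [← this]; exact leadingCoeff_ne_zero.mpr hQ
    unfold zer at h
    rw [if_neg hd, if_neg hd'] at h
    have h' : (P.coeff 1)⁻¹ * P.coeff 0 = (Q.coeff 1)⁻¹ * Q.coeff 0 := neg_injective (Option.some.inj h)
    have h0 : Q.coeff 0 = Q.coeff 1 / P.coeff 1 * P.coeff 0 := by
      field_simp at h' ⊢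
      linear_combination -h'
    refine ⟨Q.coeff 1 / P.coeff 1, div_ne_zero n2 n1, ?_⟩
    calc Q = C (Q.coeff 1) * X + C (Q.coeff 0) := e2
      _ = C (Q.coeff 1 / P.coeff 1 * P.coeff 1) * X + C (Q.coeff 1 / P.coeff 1 * P.coeff 0) := by
          rw [div_mul_cancel₀ _ n1, ← h0]
      _ = C (Q.coeff 1 / P.coeff 1) * (C (P.coeff 1) * X + C (P.coeff 0)) := by
          rw [C_mul, C_mul]; ring
      _ = C (Q.coeff 1 / P.coeff 1) * P := by rw [← e1]

/-- Uniqueness of the factorization of a binary form. -/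
lemma exists_perm {ι : Type*} [Fintype ι] {L L' : ι → k[X]} {s : k} (hs : s ≠ 0)
    (hL : ∀ i, L i ≠ 0 ∧ (L i).natDegree ≤ 1) (hL' : ∀ i, L' i ≠ 0 ∧ (L' i).natDegree ≤ 1)
    (h : ∏ i, L i = C s * ∏ i, L' i) :
    ∃ σ : Equiv.Perm ι, ∀ i, ∃ t : k, t ≠ 0 ∧ L' i = C t * L (σ i) := by
  classical
  have hP : ∏ i, L i ≠ 0 := Finset.prod_ne_zero_iff.mpr fun i _ => (hL i).1
  have hP' : ∏ i, L' i ≠ 0 := Finset.prod_ne_zero_iff.mpr fun i _ => (hL' i).1
  have hroots : (∏ i, L i).roots = (∏ i, L' i).roots := by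
    rw [h, roots_C_mul _ hs]
  have key : ∀ (M : ι → k[X]), (∀ i, M i ≠ 0 ∧ (M i).natDegree ≤ 1) → ∀ r : k,
      (univ.filter fun i => zer (M i) = some r).card = (∏ i, M i).roots.count r := by
    intro M hM r
    have hM0 : ∏ i, M i ≠ 0 := Finset.prod_ne_zero_iff.mpr fun i _ => (hM i).1
    rw [roots_prod _ _ hM0, Multiset.count_bind]
    rw [show ((univ : Finset ι).val.map fun b => Multiset.count r (M b).roots).sum
      = ∑ i, Multiset.count r (M i).roots from rfl]
    rw [Finset.sum_congr rfl fun i _ => count_roots (hM i).2 r, Finset.card_filter]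
  have key0 : ∀ (M : ι → k[X]), (∀ i, M i ≠ 0 ∧ (M i).natDegree ≤ 1) →
      (univ.filter fun i => zer (M i) = none).card + (∏ i, M i).natDegree = Fintype.card ι := by
    intro M hM
    rw [natDegree_prod _ _ fun i _ => (hM i).1, Finset.card_filter, ← Finset.sum_add_distrib]
    rw [Finset.sum_congr rfl (g := fun _ => 1) fun i _ => ?_]
    · simp
    · simp only [zer_eq_none]
      have := (hM i).2
      split_ifs <;> omega
  have hdeg : (∏ i, L i).natDegree = (∏ i, L' i).natDegree := by
    rw [h, natDegree_C_mul hs]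
  have hcard : ∀ b : Option k, Fintype.card {i // zer (L' i) = b} = Fintype.card {i // zer (L i) = b} := by
    intro b
    rw [Fintype.card_subtype, Fintype.card_subtype]
    rcases b with _ | r
    · have h1 := key0 L hL
      have h2 := key0 L' hL'
      omega
    · rw [key L hL, key L' hL', hroots]
  let e : ∀ b : Option k, {i // zer (L' i) = b} ≃ {i // zer (L i) = b} := fun b =>
    Fintype.equivOfCardEq (hcard b)
  refine ⟨Equiv.ofFiberEquiv (f := fun i => zer (L' i)) (g := fun i => zer (L i)) e, fun i => ?_⟩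
  have h3 := Equiv.ofFiberEquiv_map (f := fun i => zer (L' i)) (g := fun i => zer (L i)) e i
  exact eq_C_mul_of_zer_eq (hL _).1 (hL _).2 (hL' i).1 (hL' i).2 h3

end Pool.Agent.U436.HP
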